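import Mathlib
import Pool.Agent.Lib.MP_44a246_ntMS.MS01

/-!
Bordered minors of a family of derivations with one logarithmic column.
-/

namespace Pool.Agent.Lib.MP_44a246_ntML

open Pool.Agent.Lib.MP_44a246_nt
open Pool.Agent.Lib.MP_44a246_ntL
open Pool.Agent.Lib.MP_44a246_ntX
open Pool.Agent.Lib.MP_44a246_ntMS
open Pool.Agent.Lib.MP_e52354_ntMR
open WithZero MvPolynomial

section Place

variable {κ L : Type*} [Field κ] [Field L] [Algebra κ L]

/-- the minors of the derivations, bordered by a row of integral elements -/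
theorem border_bound' {ι : Type*} {D : ι → Derivation ℤ L L} {δ ρ : Place κ L → ℕ}
    (hD : MinorBound κ D Set.univ δ ρ) (w : Place κ L) {m : ℕ} (K : Fin m → ι)
    (e c : Fin 1 ⊕ Fin m → L) (he : ∀ b, w.1 (e b) ≤ 1) (hc : ∀ b, w.1 (c b) ≤ 1) :
    w.1 (Matrix.of (Sum.elim (fun _ : Fin 1 => e) (fun q b => D (K q) (c b)))).det ≤
      exp ((m * δ w + ρ w : ℕ) : ℤ) := by
  classical
  obtain ⟨ε, hε0, hε1⟩ : ∃ ε : Fin (m + 1) ≃ Fin 1 ⊕ Fin m, ε 0 = Sum.inl 0 ∧
      ∀ i : Fin m, ε i.succ = Sum.inr i := by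
    have hinj : Function.Injective (Fin.cons (Sum.inl 0) Sum.inr : Fin (m + 1) → Fin 1 ⊕ Fin m) := by
      intro i j hij
      induction i using Fin.cases with
      | zero =>
        induction j using Fin.cases with
        | zero => rfl
        | succ j => simp at hij
      | succ i =>
        induction j using Fin.cases with
        | zero => simp at hij
        | succ j =>
          simp only [Fin.cons_succ, Sum.inr.injEq] at hij
          rw [hij]
    have hbij : Function.Bijective
        (Fin.cons (Sum.inl 0) Sum.inr : Fin (m + 1) → Fin 1 ⊕ Fin m) := by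
      refine (Fintype.bijective_iff_injective_and_card _).2 ⟨hinj, ?_⟩
      rw [Fintype.card_sum, Fintype.card_fin, Fintype.card_fin, Fintype.card_fin]
      omega
    exact ⟨Equiv.ofBijective _ hbij, rfl, fun i => rfl⟩
  rw [← Matrix.det_submatrix_equiv_self ε, Matrix.det_succ_row_zero]
  refine Valuation.map_sum_le _ fun j _ => ?_
  rw [map_mul, map_mul, map_pow, Valuation.map_neg, map_one, one_pow, one_mul]
  have h1 : w.1 ((Matrix.of (Sum.elim (fun _ : Fin 1 => e)
      (fun q b => D (K q) (c b)))).submatrix ε ε 0 j) ≤ 1 := by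
    rw [Matrix.submatrix_apply, hε0]
    exact he _
  have h2 := hD w m K (fun i' => c (ε (j.succAbove i'))) (fun _ => Set.mem_univ _)
    (fun _ => hc _)
  have h3 : ((Matrix.of (Sum.elim (fun _ : Fin 1 => e)
      (fun q b => D (K q) (c b)))).submatrix ε ε).submatrix Fin.succ j.succAbove =
      Matrix.of fun i j' => D (K i) (c (ε (j.succAbove j'))) := by
    ext i i'
    rw [Matrix.submatrix_apply, Matrix.submatrix_apply, hε1]
    rfl
  rw [h3]
  calc _ ≤ 1 * exp ((m * δ w + ρ w : ℕ) : ℤ) := mul_le_mul' h1 h2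
    _ = _ := one_mul _

/-- the logarithmic derivatives of an element at a place -/
theorem log_decomp (w : Place κ L) {u : L} (hu : u ≠ 0) {n : ℕ} (hn : w.1 u ≠ 1 → 1 ≤ n) :
    ∃ π ε a : L, w.1 π ≤ 1 ∧ w.1 ε = 1 ∧ w.1 a ≤ exp (n : ℤ) ∧
      ∀ D : Derivation ℤ L L, D u / u = a * D π + ε⁻¹ * D ε := by
  obtain ⟨π, hπ⟩ := w.2.1 (exp (-1))
  have hπ0 : π ≠ 0 := by
    intro h0
    rw [h0, map_zero] at hπ
    exact exp_ne_zero hπ.symm
  have hwu : w.1 u ≠ 0 := (Valuation.ne_zero_iff _).2 hu
  obtain ⟨e, he⟩ : ∃ e : ℤ, w.1 u = exp (-e) := ⟨- log (w.1 u), by rw [neg_neg, exp_log hwu]⟩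
  have hπe : w.1 (π ^ e) = exp (-e) := by
    rw [map_zpow₀, hπ, ← exp_zsmul]
    congr 1
    rw [smul_eq_mul]
    ring
  have hπe0 : π ^ e ≠ 0 := zpow_ne_zero _ hπ0
  refine ⟨π, u / π ^ e, e * π⁻¹, ?_, ?_, ?_, ?_⟩
  · rw [hπ, ← exp_zero, exp_le_exp]
    omega
  · rw [map_div₀, hπe, ← he, div_self hwu]
  · rcases eq_or_ne e 0 with h0 | h0
    · rw [h0, Int.cast_zero, zero_mul, map_zero]
      exact zero_le
    · have h1 : 1 ≤ n := by
        refine hn ?_
        rw [he, ← exp_zero]
        intro h2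
        have h3 := exp_injective h2
        omega
      have h2 : w.1 ((e : ℤ) : L) ≤ 1 := by
        have h4 : ∀ k : ℕ, w.1 (k : L) ≤ 1 := by
          intro k
          induction k with
          | zero => rw [Nat.cast_zero, map_zero]; exact zero_le
          | succ k ih =>
            rw [Nat.cast_succ]
            exact (Valuation.map_add _ _ _).trans (max_le ih (by rw [map_one]))
        rcases Int.natAbs_eq e with h5 | h5
        · rw [h5, Int.cast_natCast]
          exact h4 _
        · rw [h5, Int.cast_neg, Valuation.map_neg, Int.cast_natCast]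
          exact h4 _
      rw [map_mul, map_inv₀, hπ, ← exp_neg, neg_neg]
      calc _ ≤ 1 * exp (1 : ℤ) := mul_le_mul' h2 le_rfl
        _ = exp (1 : ℤ) := one_mul _
        _ ≤ exp (n : ℤ) := by
          rw [exp_le_exp]
          exact_mod_cast h1
  · intro D
    have h1 : D (π ^ e) / π ^ e = e * (D π / π) := by
      rw [Derivation.leibniz_zpow, zpow_sub₀ hπ0, zpow_one, zsmul_eq_mul, smul_eq_mul]
      field_simp
    have h2 : D (u / π ^ e) = (D u - u * (D (π ^ e) / π ^ e)) / π ^ e := by
      rw [Derivation.leibniz_div, smul_eq_mul, smul_eq_mul, smul_eq_mul]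
      field_simp
    rw [h2, h1]
    field_simp
    ring

/-- the bordered minors with one logarithmic column -/
theorem border_log {ι : Type*} {D : ι → Derivation ℤ L L} {δ ρ : Place κ L → ℕ}
    (hD : MinorBound κ D Set.univ δ ρ) (w : Place κ L) {m : ℕ} (K : Fin m → ι)
    (e c : Fin 1 ⊕ Fin m → L) (he : ∀ b, w.1 (e b) ≤ 1) (b₀ : Fin 1 ⊕ Fin m)
    (hc : ∀ b, b ≠ b₀ → w.1 (c b) ≤ 1) (hc0 : c b₀ ≠ 0) {n : ℕ} (hn : w.1 (c b₀) ≠ 1 → 1 ≤ n) :
    w.1 (Matrix.of (Sum.elim (fun _ : Fin 1 => e)
      (fun q b => if b = b₀ then D (K q) (c b) / c b else D (K q) (c b)))).det ≤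
      exp ((m * δ w + ρ w + n : ℕ) : ℤ) := by
  classical
  obtain ⟨π, ε, a, hπ, hε, ha, hdec⟩ := log_decomp w hc0 hn
  have hε0 : ε ≠ 0 := by
    intro h0
    rw [h0, map_zero] at hε
    exact zero_ne_one hε
  obtain ⟨A, hA⟩ : ∃ A : Matrix (Fin 1 ⊕ Fin m) (Fin 1 ⊕ Fin m) L,
    A = Matrix.of (Sum.elim (fun _ : Fin 1 => e)
      (fun q b => if b = b₀ then D (K q) (c b) / c b else D (K q) (c b))) := ⟨_, rfl⟩
  rw [← hA]
  have h1 : A = A.updateCol b₀ (a • (Sum.elim (fun _ => 0) fun q => D (K q) π) +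
      ε⁻¹ • (Sum.elim (fun _ => ε * e b₀) fun q => D (K q) ε)) := by
    ext i b
    rw [Matrix.updateCol_apply]
    split_ifs with hb
    · subst hb
      rw [Pi.add_apply, Pi.smul_apply, Pi.smul_apply, smul_eq_mul, smul_eq_mul, hA]
      rcases i with i | q
      · show e b = a * 0 + ε⁻¹ * (ε * e b)
        rw [mul_zero, zero_add, ← mul_assoc, inv_mul_cancel₀ hε0, one_mul]
      · show (if b = b then D (K q) (c b) / c b else D (K q) (c b)) = a * D (K q) π + ε⁻¹ * D (K q) ε
        rw [if_pos rfl, hdec]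
    · rfl
  have key : ∀ (e₁ z : L), w.1 e₁ ≤ 1 → w.1 z ≤ 1 →
      w.1 (A.updateCol b₀ (Sum.elim (fun _ => e₁) fun q => D (K q) z)).det ≤
        exp ((m * δ w + ρ w : ℕ) : ℤ) := by
    intro e₁ z he₁ hz
    have h2 : A.updateCol b₀ (Sum.elim (fun _ => e₁) fun q => D (K q) z) =
        Matrix.of (Sum.elim (fun _ : Fin 1 => Function.update e b₀ e₁)
          (fun q b => D (K q) (Function.update c b₀ z b))) := by
      ext i b
      rw [Matrix.updateCol_apply]
      split_ifs with hb
      · subst hb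
        rcases i with i | q
        · show e₁ = Function.update e b e₁ b
          rw [Function.update_self]
        · show D (K q) z = D (K q) (Function.update c b z b)
          rw [Function.update_self]
      · rw [hA]
        rcases i with i | q
        · show e b = Function.update e b₀ e₁ b
          rw [Function.update_of_ne hb]
        · show (if b = b₀ then D (K q) (c b) / c b else D (K q) (c b)) =
            D (K q) (Function.update c b₀ z b)
          rw [Function.update_of_ne hb, if_neg hb]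
    rw [h2]
    refine border_bound' hD w K _ _ (fun b => ?_) fun b => ?_
    · by_cases hb : b = b₀
      · rw [hb, Function.update_self]
        exact he₁
      · rw [Function.update_of_ne hb]
        exact he b
    · by_cases hb : b = b₀
      · rw [hb, Function.update_self]
        exact hz
      · rw [Function.update_of_ne hb]
        exact hc b hb
  rw [h1, Matrix.det_updateCol_add, Matrix.det_updateCol_smul, Matrix.det_updateCol_smul]
  have hadd : exp ((m * δ w + ρ w + n : ℕ) : ℤ) =
      exp (n : ℤ) * exp ((m * δ w + ρ w : ℕ) : ℤ) := by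
    rw [← exp_add]
    congr 1
    push_cast
    ring
  refine (Valuation.map_add _ _ _).trans (max_le ?_ ?_)
  · rw [map_mul, hadd]
    exact mul_le_mul' ha (key 0 π (by rw [map_zero]; exact zero_le) hπ)
  · rw [map_mul, map_inv₀, hε, inv_one, one_mul]
    refine (key (ε * e b₀) ε ?_ hε.le).trans ?_
    · rw [map_mul, hε, one_mul]
      exact he b₀
    · rw [exp_le_exp]
      push_cast
      omega

end Place

end Pool.Agent.Lib.MP_44a246_ntML
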