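import Mathlib
import Pool.Agent.Lib.MP_44a246_ntML.ML01

/-!
Scaling of the columns of the minors, and the rank of the minors.
-/

namespace Pool.Agent.Lib.MP_44a246_ntML

open Pool.Agent.Lib.MP_44a246_ntMS
open Pool.Agent.Lib.MP_e52354_ntMR
open MvPolynomial

section Alg

variable {M : Type*} [Field M] {s : ℕ}

/-- scaling of the columns -/
theorem det_rowsL_scale {w : ℕ} (τ : Fin s → M) {x xh : Fin s → M} (hx : ∀ i, x i = τ i * xh i)
    {y yh : Fin s → MvPolynomial (Fin s) M} {z : MvPolynomial (Fin s) M}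
    (hy : ∀ i, y i = C (τ i) * (yh i + C (xh i) * z)) (α : Fin w → List (Fin s))
    (col : Fin 1 ⊕ Fin w → Fin s) :
    (Matrix.of fun a b => rowsL x y α a (col b)).det =
      C (∏ b, τ (col b)) * (Matrix.of fun a b => rowsL xh yh α a (col b)).det := by
  classical
  have h1 : (Matrix.of fun a b => rowsL x y α a (col b)).det =
      (Matrix.of fun a b => C (τ (col b)) * rowsL xh yh α a (col b)).det := by
    refine Matrix.det_eq_of_forall_row_eq_smul_add_const
      (Sum.elim (fun _ => 0) fun q => dL (α q) z) (Sum.inl 0) rfl ?_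
    intro a b
    rcases a with a | q
    · show C (x (col b)) = C (τ (col b)) * C (xh (col b)) + 0 * _
      rw [zero_mul, add_zero, hx, C_mul]
    · show dL (α q) (y (col b)) = C (τ (col b)) * dL (α q) (yh (col b)) +
        dL (α q) z * (C (τ (col b)) * C (xh (col b)))
      rw [hy, dL_C_mul, dL_add, dL_C_mul]
      ring
  have h2 := Matrix.det_mul_row (fun b => C (τ (col b)))
    (Matrix.of fun a b => rowsL xh yh α a (col b))
  rw [h1, map_prod]
  exact h2

/-- the size of a nonzero minor is bounded by the rank -/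
theorem minor_rank {w q : ℕ} {x : Fin s → M} {y : Fin s → MvPolynomial (Fin s) M}
    {α : Fin w → List (Fin s)} {col : Fin 1 ⊕ Fin w → Fin s}
    (hdet : (Matrix.of fun a b => rowsL x y α a (col b)).det ≠ 0)
    (μ : Fin q → MvPolynomial (Fin s) M) (c : Fin q → Fin 1 ⊕ Fin w → M)
    (hy : ∀ b, y (col b) = ∑ t, μ t * C (c t b)) : w ≤ q := by
  classical
  obtain ⟨A, hA⟩ : ∃ A : Matrix (Fin 1 ⊕ Fin w) (Fin 1 ⊕ Fin w) (MvPolynomial (Fin s) M),
      A = Matrix.of fun a b => rowsL x y α a (col b) := ⟨_, rfl⟩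
  rw [← hA] at hdet
  obtain ⟨R, hR⟩ : ∃ R : Matrix (Fin 1 ⊕ Fin w) (Fin 1 ⊕ Fin q) (MvPolynomial (Fin s) M),
      R = Matrix.of (Sum.elim (fun _ => Sum.elim (fun _ => 1) fun _ => 0)
        fun a => Sum.elim (fun _ => 0) fun t => dL (α a) (μ t)) := ⟨_, rfl⟩
  obtain ⟨S, hS⟩ : ∃ S : Matrix (Fin 1 ⊕ Fin q) (Fin 1 ⊕ Fin w) (MvPolynomial (Fin s) M),
      S = Matrix.of (Sum.elim (fun _ b => C (x (col b))) fun t b => C (c t b)) := ⟨_, rfl⟩
  have hAR : A = R * S := by
    ext1 a b
    rw [Matrix.mul_apply, Fintype.sum_sum_type, hA, hR, hS]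
    rcases a with a | a
    · show C (x (col b)) = ∑ _e : Fin 1, 1 * C (x (col b)) + ∑ t, 0 * C (c t b)
      simp
    · show dL (α a) (y (col b)) = ∑ _e : Fin 1, 0 * C (x (col b)) +
        ∑ t, dL (α a) (μ t) * C (c t b)
      rw [hy, dL_sum]
      simp only [zero_mul, Finset.sum_const_zero, zero_add]
      exact Finset.sum_congr rfl fun t _ => dL_mul_C _ _ _
  have hinj : Function.Injective (algebraMap (MvPolynomial (Fin s) M)
      (FractionRing (MvPolynomial (Fin s) M))) := IsFractionRing.injective _ _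
  obtain ⟨f, hf⟩ : ∃ f : MvPolynomial (Fin s) M →+* FractionRing (MvPolynomial (Fin s) M),
    f = algebraMap _ _ := ⟨_, rfl⟩
  have h1 : (A.map f).det ≠ 0 := by
    intro h0
    apply hdet
    apply hinj
    rw [map_zero, ← h0, hf]
    exact (RingHom.map_det _ _)
  have h2 : A.map f = R.map f * S.map f := by
    rw [hAR, Matrix.map_mul]
  have h3 : (A.map f).rank = 1 + w := by
    rw [Matrix.rank_of_isUnit _ ((Matrix.isUnit_iff_isUnit_det _).2 (isUnit_iff_ne_zero.2 h1)),
      Fintype.card_sum, Fintype.card_fin, Fintype.card_fin]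
  have h4 : (A.map f).rank ≤ 1 + q := by
    rw [h2]
    refine (Matrix.rank_mul_le_left _ _).trans ((Matrix.rank_le_card_width _).trans ?_)
    rw [Fintype.card_sum, Fintype.card_fin, Fintype.card_fin]
  omega

/-- the columns of a nonzero minor are different -/
theorem col_injective {w : ℕ} {x : Fin s → M} {y : Fin s → MvPolynomial (Fin s) M}
    {α : Fin w → List (Fin s)} {col : Fin 1 ⊕ Fin w → Fin s}
    (hdet : (Matrix.of fun a b => rowsL x y α a (col b)).det ≠ 0) : Function.Injective col := by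
  intro b b' hbb
  by_contra hne
  refine hdet (Matrix.det_zero_of_column_eq hne fun a => ?_)
  show rowsL x y α a (col b) = rowsL x y α a (col b')
  rw [hbb]

/-- the coefficients after an injective change of the variables -/
theorem coeff_rename_mem {s' : ℕ} {f : Fin s → Fin s'} (hf : Function.Injective f)
    (P : MvPolynomial (Fin s) M) (β : Fin s' →₀ ℕ) :
    coeff β (rename f P) = 0 ∨ ∃ γ, coeff β (rename f P) = coeff γ P := by
  by_cases h : coeff β (rename f P) = 0
  · exact Or.inl h
  · obtain ⟨γ, hγ, hγ0⟩ := coeff_rename_ne_zero f P β h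
    right
    refine ⟨γ, ?_⟩
    rw [← hγ, coeff_rename_mapDomain f hf]

end Alg

end Pool.Agent.Lib.MP_44a246_ntML
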