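import Mathlib
import Pool.Agent.Lib.MP_44a246_ntML.ML02

/-!
The height inequality with a truncated counting function, from the minor which is divisible by a
large power of the linear form.
-/

namespace Pool.Agent.Lib.MP_44a246_ntML

open Pool.Agent.Lib.MP_44a246_nt
open Pool.Agent.Lib.MP_44a246_ntL
open Pool.Agent.Lib.MP_44a246_ntX
open Pool.Agent.Lib.MP_44a246_ntMS
open Pool.Agent.Lib.MP_e52354_ntMR
open WithZero MvPolynomial

variable {κ L : Type*} [Field κ] [Field L] [Algebra κ L]

/-- **The height inequality with a truncated counting function.** -/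
theorem height_ineq_log [IsAlgClosed κ] [CharZero κ] [CharZero L] (h : IsFF κ L) {ι : Type*}
    [Fintype ι] {D : ι → Derivation ℤ L L} {δ ρ σ N : Place κ L → ℕ}
    (hδ : (Function.support δ).Finite) (hρ : (Function.support ρ).Finite)
    (hσ : (Function.support σ).Finite) (hN : (Function.support N).Finite)
    (hD : MinorBound κ D Set.univ δ ρ) {s : ℕ}
    {lam : ι → MvPolynomial (Fin s) L}
    (hlam : ∀ I α (w : Place κ L), w.1 (coeff α (lam I)) ≤ exp (σ w : ℤ))
    {x : Fin s → L} {j₀ : Fin s} (hx : x j₀ = 1) {u : L} (hu : u ≠ 0) {d : ℕ}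
    (hNu : ∀ w : Place κ L, w.1 u ≠ vmax w.1 x ^ d → 1 ≤ N w)
    {φ : Fin s → L} (hφx : ∑ i, φ i * x i = d * u)
    {g : MvPolynomial (Fin s) L} (hg : g ≠ 0) {J r : ℕ}
    (hφ : ∑ i, C (φ i) * (∑ I, lam I * C (D I (x i))) - ∑ I, lam I * C (D I u) =
      (∑ l, C (x l) * X l) ^ J * g)
    {q : ℕ} (hq : q ≤ r) (c : Fin s → Fin q → L) (jj : Fin q → Fin s)
    (hc : ∀ I i, D I (x i) = ∑ t, c i t * D I (x (jj t))) :
    ((J : ℤ) - 2 * r - 1) * height κ x ≤
      ∑ᶠ w, (ρ w : ℤ) + ∑ᶠ w, (N w : ℤ) +
        (r + 1) * (∑ᶠ w, (δ w : ℤ) + ∑ᶠ w, (σ w : ℤ)) := by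
  classical
  obtain ⟨rn, hrn⟩ : ∃ rn : MvPolynomial (Fin s) L →ₐ[L] MvPolynomial (Fin (s + 1)) L,
    rn = rename Fin.castSucc := ⟨_, rfl⟩
  have hrnC : ∀ a : L, rn (C a) = C a := by
    intro a
    rw [hrn, rename_C]
  have hrninj : Function.Injective rn := by
    rw [hrn]
    exact rename_injective _ (Fin.castSucc_injective s)
  obtain ⟨lm, hlm⟩ : ∃ lm : ι → MvPolynomial (Fin (s + 1)) L, lm = fun I => rn (lam I) := ⟨_, rfl⟩
  have hlmw : ∀ I β (w : Place κ L), w.1 (coeff β (lm I)) ≤ exp (σ w : ℤ) := by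
    intro I β w
    rw [hlm, hrn]
    rcases coeff_rename_mem (Fin.castSucc_injective s) (lam I) β with h1 | ⟨γ, h1⟩
    · show w.1 (coeff β (rename Fin.castSucc (lam I))) ≤ _
      rw [h1, map_zero]
      exact zero_le
    · show w.1 (coeff β (rename Fin.castSucc (lam I))) ≤ _
      rw [h1]
      exact hlam I γ w
  -- the vectors with the additional coordinate
  obtain ⟨X', hX'⟩ : ∃ X' : Fin (s + 1) → L, X' = Fin.snoc x (d : L) := ⟨_, rfl⟩
  have hX'c : ∀ i, X' (Fin.castSucc i) = x i := fun i => by rw [hX', Fin.snoc_castSucc]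
  have hX'l : X' (Fin.last s) = d := by rw [hX', Fin.snoc_last]
  obtain ⟨y, hydef⟩ : ∃ y : Fin (s + 1) → MvPolynomial (Fin (s + 1)) L,
    y = Fin.snoc (fun i => ∑ I, lm I * C (D I (x i))) (∑ I, lm I * C (D I u / u)) := ⟨_, rfl⟩
  have hyc : ∀ i, y (Fin.castSucc i) = ∑ I, lm I * C (D I (x i)) := fun i => by
    rw [hydef, Fin.snoc_castSucc]
  have hyl : y (Fin.last s) = ∑ I, lm I * C (D I u / u) := by rw [hydef, Fin.snoc_last]
  obtain ⟨φ', hφ'd⟩ : ∃ φ' : Fin (s + 1) → L, φ' = Fin.snoc φ (-u) := ⟨_, rfl⟩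
  have hφ'c : ∀ i, φ' (Fin.castSucc i) = φ i := fun i => by rw [hφ'd, Fin.snoc_castSucc]
  have hφ'l : φ' (Fin.last s) = -u := by rw [hφ'd, Fin.snoc_last]
  have hX0 : X' ≠ 0 := by
    intro h0
    have h1 := congrFun h0 (Fin.castSucc j₀)
    rw [hX'c, hx] at h1
    exact one_ne_zero h1
  have hx0 : x ≠ 0 := by
    intro h0
    rw [h0] at hx
    exact zero_ne_one hx
  have hφX : ∑ i, φ' i * X' i = 0 := by
    rw [Fin.sum_univ_castSucc]
    simp only [hφ'c, hX'c, hφ'l, hX'l]
    rw [hφx]
    ring
  obtain ⟨ℓ, hℓd⟩ : ∃ ℓ : MvPolynomial (Fin s) L, ℓ = ∑ l, C (x l) * X l := ⟨_, rfl⟩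
  have hℓ0 : ℓ ≠ 0 := by
    intro h0
    have h1 := congrArg (coeff (Finsupp.single j₀ 1)) h0
    rw [hℓd, coeff_sum, Finset.sum_eq_single j₀, coeff_C_mul, coeff_X, if_pos rfl, mul_one, hx,
      coeff_zero] at h1
    · exact one_ne_zero h1
    · intro l _ hl
      rw [coeff_C_mul, coeff_X, if_neg, mul_zero]
      intro h2
      exact hl (Finsupp.single_left_injective one_ne_zero h2)
    · intro h2
      exact absurd (Finset.mem_univ _) h2
  have hℓ'0 : rn ℓ ≠ 0 := by
    intro h0
    rw [← map_zero rn] at h0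
    exact hℓ0 (hrninj h0)
  have hg' : rn g ≠ 0 := by
    intro h0
    rw [← map_zero rn] at h0
    exact hg (hrninj h0)
  have hφ' : ∑ i, C (φ' i) * y i = rn ℓ ^ J * rn g := by
    rw [Fin.sum_univ_castSucc]
    simp only [hφ'c, hyc, hφ'l, hyl]
    have h1 : ∀ i, C (φ i) * (∑ I, lm I * C (D I (x i))) =
        rn (C (φ i) * (∑ I, lam I * C (D I (x i)))) := by
      intro i
      rw [map_mul, hrnC, map_sum]
      congr 1
      refine Finset.sum_congr rfl fun I _ => ?_
      rw [map_mul, hrnC, hlm]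
    have h2 : (C (-u) : MvPolynomial (Fin (s + 1)) L) * (∑ I, lm I * C (D I u / u)) =
        - rn (∑ I, lam I * C (D I u)) := by
      rw [map_sum, ← Finset.sum_neg_distrib, Finset.mul_sum]
      refine Finset.sum_congr rfl fun I _ => ?_
      rw [map_mul, hrnC, hlm]
      show C (-u) * (rn (lam I) * C (D I u / u)) = -(rn (lam I) * C (D I u))
      have h3 : (C (-u) : MvPolynomial (Fin (s + 1)) L) * C (D I u / u) = - C (D I u) := by
        rw [← C_mul, ← C_neg]
        congr 1
        field_simp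
      linear_combination rn (lam I) * h3
    rw [h2]
    simp only [h1]
    rw [← map_sum, ← sub_eq_add_neg, ← map_sub, hφ, ← hℓd, map_mul, map_pow]
  -- the rank
  obtain ⟨cc, hcc⟩ : ∃ cc : Fin (q + 1) → Fin (s + 1) → L,
    cc = Fin.snoc (fun t => Fin.snoc (fun i => c i t) 0) (Fin.snoc (fun _ => 0) 1) := ⟨_, rfl⟩
  obtain ⟨μ, hμd⟩ : ∃ μ : Fin (q + 1) → MvPolynomial (Fin (s + 1)) L,
    μ = Fin.snoc (fun t => ∑ I, lm I * C (D I (x (jj t)))) (y (Fin.last s)) := ⟨_, rfl⟩
  have hyx : ∀ i : Fin s, y (Fin.castSucc i) =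
      ∑ t : Fin q, (∑ I, lm I * C (D I (x (jj t)))) * C (c i t) := by
    intro i
    rw [hyc]
    simp only [Finset.sum_mul]
    rw [Finset.sum_comm]
    refine Finset.sum_congr rfl fun I _ => ?_
    rw [hc I i, map_sum, Finset.mul_sum]
    refine Finset.sum_congr rfl fun t _ => ?_
    rw [C_mul]
    ring
  have hyμ : ∀ i, y i = ∑ t, μ t * C (cc t i) := by
    intro i
    rw [Fin.sum_univ_castSucc]
    simp only [hμd, hcc, Fin.snoc_castSucc, Fin.snoc_last]
    refine Fin.lastCases ?_ (fun i => ?_) i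
    · simp only [Fin.snoc_last, C_0, mul_zero, Finset.sum_const_zero, zero_add, C_1, mul_one]
    · simp only [Fin.snoc_castSucc, C_0, mul_zero, add_zero]
      exact hyx i
  obtain ⟨w₀, m, α, col, hm, hw, hdet, hdvd⟩ :=
    exists_minor_dvd hX0 hφX hℓ'0 hg' hφ' (show q + 1 ≤ r + 1 by omega) cc μ hyμ
  have hcol := col_injective hdet
  obtain ⟨P, hP⟩ := hdvd
  have hP0 : P ≠ 0 := by
    intro h0
    rw [h0, mul_zero] at hP
    exact hdet hP
  obtain ⟨β, hβ⟩ := ne_zero_iff.1 hP0
  obtain ⟨k, hk⟩ : ∃ k, k = J - m := ⟨_, rfl⟩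
  rw [← hk] at hP
  -- the number of the columns which are not logarithmic
  obtain ⟨nx, hnx⟩ : ∃ nx : ℕ, nx = (Finset.univ.filter fun b => col b ≠ Fin.last s).card :=
    ⟨_, rfl⟩
  have hcard : (Finset.univ : Finset (Fin 1 ⊕ Fin w₀)).card = 1 + w₀ := by
    rw [Finset.card_univ, Fintype.card_sum, Fintype.card_fin, Fintype.card_fin]
  have hnxk : (J : ℤ) - 2 * r - 1 ≤ (k : ℤ) - nx := by
    by_cases hex : ∃ b₀, col b₀ = Fin.last s
    · obtain ⟨b₀, hb₀⟩ := hex
      have h1 : nx ≤ w₀ := by
        rw [hnx]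
        have h2 : (Finset.univ.filter fun b => col b ≠ Fin.last s) ⊆ Finset.univ.erase b₀ := by
          intro b hb
          rw [Finset.mem_filter] at hb
          refine Finset.mem_erase.2 ⟨?_, Finset.mem_univ _⟩
          rintro rfl
          exact hb.2 hb₀
        have h3 := Finset.card_le_card h2
        rw [Finset.card_erase_of_mem (Finset.mem_univ _), hcard] at h3
        omega
      omega
    · push Not at hex
      have h1 : nx ≤ 1 + w₀ := by
        rw [hnx, ← hcard]
        exact Finset.card_filter_le _ _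
      have h2 : w₀ ≤ q := by
        refine minor_rank hdet (fun t => ∑ I, lm I * C (D I (x (jj t))))
          (fun t b => Fin.snoc (α := fun _ => L) (fun i => c i t) 0 (col b)) fun b => ?_
        obtain ⟨i, hi⟩ : ∃ i : Fin s, col b = Fin.castSucc i := by
          have h3 := hex b
          refine ⟨(col b).castPred h3, (Fin.castSucc_castPred _ _).symm⟩
        rw [hi, hyx]
        refine Finset.sum_congr rfl fun t _ => ?_
        rw [Fin.snoc_castSucc]
      omega
  -- the local inequality
  have hloc : ∀ w : Place κ L, log (w.1 (coeff β P)) +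
      ((k : ℤ) - nx) * log (vmax w.1 x) ≤ w₀ * (δ w + σ w) + (ρ w + N w) := by
    intro w
    obtain ⟨l, hl, hlmax, hlk⟩ := exists_vmax w.1 hx0
    obtain ⟨O, hO⟩ : ∃ O : Subring L, O = w.1.integer := ⟨_, rfl⟩
    have hmem : ∀ z : L, z ∈ O ↔ w.1 z ≤ 1 := by
      intro z
      rw [hO]
      exact Valuation.mem_integer_iff _ _
    have hwl : w.1 (x l) ≠ 0 := (Valuation.ne_zero_iff _).2 hl
    -- the normalised vectors
    obtain ⟨xh, hxh⟩ : ∃ xh : Fin s → L, xh = fun i => x i / x l := ⟨_, rfl⟩
    obtain ⟨uh, huh⟩ : ∃ uh : L, uh = u / x l ^ d := ⟨_, rfl⟩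
    have hxxh : ∀ i, x i = x l * xh i := by
      intro i
      rw [hxh]
      show x i = x l * (x i / x l)
      rw [mul_div_cancel₀ _ hl]
    have hxhO : ∀ i, xh i ∈ O := by
      intro i
      rw [hmem, hxh]
      show w.1 (x i / x l) ≤ 1
      rw [map_div₀]
      exact div_le_one_of_le₀ (hlk i) zero_le
    have hxhl : xh l = 1 := by
      rw [hxh]
      exact div_self hl
    have huh0 : uh ≠ 0 := by
      rw [huh]
      exact div_ne_zero hu (pow_ne_zero _ hl)
    have huN : w.1 uh ≠ 1 → 1 ≤ N w := by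
      intro h1
      refine hNu w fun h2 => h1 ?_
      rw [huh, map_div₀, map_pow, h2, hlmax]
      exact div_self (pow_ne_zero _ hwl)
    obtain ⟨Xh, hXh⟩ : ∃ Xh : Fin (s + 1) → L, Xh = Fin.snoc xh (d : L) := ⟨_, rfl⟩
    have hXhc : ∀ i, Xh (Fin.castSucc i) = xh i := fun i => by rw [hXh, Fin.snoc_castSucc]
    have hXhl : Xh (Fin.last s) = d := by rw [hXh, Fin.snoc_last]
    have hdO : (d : L) ∈ O := natCast_mem _ _
    have hXhO : ∀ i, Xh i ∈ O := by
      intro i
      refine Fin.lastCases ?_ (fun i => ?_) i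
      · rw [hXhl]
        exact hdO
      · rw [hXhc]
        exact hxhO i
    obtain ⟨yh, hyh⟩ : ∃ yh : Fin (s + 1) → MvPolynomial (Fin (s + 1)) L,
      yh = Fin.snoc (fun i => ∑ I, lm I * C (D I (xh i))) (∑ I, lm I * C (D I uh / uh)) :=
        ⟨_, rfl⟩
    have hyhc : ∀ i, yh (Fin.castSucc i) = ∑ I, lm I * C (D I (xh i)) := fun i => by
      rw [hyh, Fin.snoc_castSucc]
    have hyhl : yh (Fin.last s) = ∑ I, lm I * C (D I uh / uh) := by rw [hyh, Fin.snoc_last]
    obtain ⟨τ, hτ⟩ : ∃ τ : Fin (s + 1) → L, τ = Fin.snoc (fun _ => x l) 1 := ⟨_, rfl⟩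
    have hτc : ∀ i, τ (Fin.castSucc i) = x l := fun i => by rw [hτ, Fin.snoc_castSucc]
    have hτl : τ (Fin.last s) = 1 := by rw [hτ, Fin.snoc_last]
    have hXX : ∀ i, X' i = τ i * Xh i := by
      intro i
      refine Fin.lastCases ?_ (fun i => ?_) i
      · rw [hX'l, hτl, hXhl, one_mul]
      · rw [hX'c, hτc, hXhc]
        exact hxxh i
    obtain ⟨z, hz⟩ : ∃ z : MvPolynomial (Fin (s + 1)) L, z = ∑ I, lm I * C (D I (x l) / x l) :=
      ⟨_, rfl⟩
    have hyy : ∀ i, y i = C (τ i) * (yh i + C (Xh i) * z) := by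
      intro i
      refine Fin.lastCases ?_ (fun i => ?_) i
      · rw [hyl, hτl, hyhl, hXhl, C_1, one_mul, hz, Finset.mul_sum, ← Finset.sum_add_distrib]
        refine Finset.sum_congr rfl fun I _ => ?_
        have h1 : D I u / u = D I uh / uh + d * (D I (x l) / x l) := by
          have h2 : u = x l ^ d * uh := by
            rw [huh, mul_div_cancel₀ _ (pow_ne_zero _ hl)]
          have h3 : D I u = x l ^ d * D I uh + uh * (d * x l ^ (d - 1) * D I (x l)) := by
            conv_lhs => rw [h2, Derivation.leibniz, Derivation.leibniz_pow, smul_eq_mul,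
              smul_eq_mul, smul_eq_mul, nsmul_eq_mul]
            ring
          rcases Nat.eq_zero_or_pos d with h4 | h4
          · subst h4
            rw [h3, h2]
            simp
          · have h5 : x l ^ d = x l ^ (d - 1) * x l := by
              rw [← pow_succ, Nat.sub_add_cancel h4]
            rw [h3, h2, h5]
            have h6 : x l ^ (d - 1) ≠ 0 := pow_ne_zero _ hl
            field_simp
        rw [h1, C_add, C_mul]
        ring
      · rw [hyc, hτc, hyhc, hXhc, hz, Finset.mul_sum, ← Finset.sum_add_distrib, Finset.mul_sum]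
        refine Finset.sum_congr rfl fun I _ => ?_
        have h1 : D I (x i) = x l * (D I (xh i) + xh i * (D I (x l) / x l)) := by
          have h2 : D I (x i) = x l * D I (xh i) + xh i * D I (x l) := by
            conv_lhs => rw [hxxh i, Derivation.leibniz, smul_eq_mul, smul_eq_mul]
          rw [h2]
          field_simp
        rw [h1, C_mul, C_add, C_mul]
        ring
    have hprod : ∏ b, τ (col b) = x l ^ nx := by
      rw [hnx, ← Finset.prod_const, Finset.prod_filter]
      refine Finset.prod_congr rfl fun b _ => ?_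
      by_cases hb : col b = Fin.last s
      · rw [if_neg (not_not.2 hb), hb, hτl]
      · rw [if_pos hb]
        obtain ⟨i, hi⟩ : ∃ i : Fin s, col b = Fin.castSucc i :=
          ⟨(col b).castPred hb, (Fin.castSucc_castPred _ _).symm⟩
        rw [hi, hτc]
    obtain ⟨ε, hε⟩ := w.2.1 (exp (-((w₀ * δ w + ρ w + N w : ℕ) : ℤ)))
    obtain ⟨b, hb⟩ := w.2.1 (exp (-(σ w : ℤ)))
    -- the elements whose derivatives are the entries of the columns
    obtain ⟨zc, hzc⟩ : ∃ zc : Fin (s + 1) → L, zc = Fin.snoc xh uh := ⟨_, rfl⟩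
    have hzcc : ∀ i, zc (Fin.castSucc i) = xh i := fun i => by rw [hzc, Fin.snoc_castSucc]
    have hzcl : zc (Fin.last s) = uh := by rw [hzc, Fin.snoc_last]
    obtain ⟨V, hV⟩ : ∃ V : ι → Fin (s + 1) → L, V = fun I i =>
      if i = Fin.last s then D I (zc i) / zc i else D I (zc i) := ⟨_, rfl⟩
    have hminor : ∀ K : Fin w₀ → ι, w.1 (Matrix.of (Sum.elim (fun _ : Fin 1 =>
        fun b => Xh (col b)) (fun q b => V (K q) (col b)))).det ≤
        exp ((w₀ * δ w + ρ w + N w : ℕ) : ℤ) := by
      intro K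
      by_cases hex : ∃ b₀, col b₀ = Fin.last s
      · obtain ⟨b₀, hb₀⟩ := hex
        have h1 : ∀ b, b ≠ b₀ → col b ≠ Fin.last s := fun b hb h2 =>
          hb (hcol (h2.trans hb₀.symm))
        have h2 := border_log hD w K (fun b => Xh (col b)) (fun b => zc (col b))
          (fun b => (hmem _).1 (hXhO _)) b₀ (fun b hb => by
            obtain ⟨i, hi⟩ : ∃ i : Fin s, col b = Fin.castSucc i :=
              ⟨(col b).castPred (h1 b hb), (Fin.castSucc_castPred _ _).symm⟩
            rw [hi, hzcc]
            exact (hmem _).1 (hxhO i)) (by rw [hb₀, hzcl]; exact huh0) (n := N w) (by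
            rw [hb₀, hzcl]; exact huN)
        have h3 : (Matrix.of (Sum.elim (fun _ : Fin 1 => fun b => Xh (col b))
            (fun q b => V (K q) (col b)))) = Matrix.of (Sum.elim (fun _ : Fin 1 =>
            fun b => Xh (col b)) (fun q b => if b = b₀ then D (K q) (zc (col b)) / zc (col b)
              else D (K q) (zc (col b)))) := by
          ext1 a b
          rcases a with a | a
          · rfl
          · show V (K a) (col b) = if b = b₀ then D (K a) (zc (col b)) / zc (col b)
              else D (K a) (zc (col b))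
            rw [hV]
            by_cases hb : b = b₀
            · rw [if_pos hb]
              show (if col b = Fin.last s then D (K a) (zc (col b)) / zc (col b)
                else D (K a) (zc (col b))) = _
              rw [if_pos (by rw [hb]; exact hb₀)]
            · rw [if_neg hb]
              show (if col b = Fin.last s then D (K a) (zc (col b)) / zc (col b)
                else D (K a) (zc (col b))) = _
              rw [if_neg (h1 b hb)]
        rw [h3]
        exact h2
      · push Not at hex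
        have h2 := border_bound' hD w K (fun b => Xh (col b)) (fun b => zc (col b))
          (fun b => (hmem _).1 (hXhO _)) (fun b => by
            obtain ⟨i, hi⟩ : ∃ i : Fin s, col b = Fin.castSucc i :=
              ⟨(col b).castPred (hex b), (Fin.castSucc_castPred _ _).symm⟩
            rw [hi, hzcc]
            exact (hmem _).1 (hxhO i))
        have h3 : (Matrix.of (Sum.elim (fun _ : Fin 1 => fun b => Xh (col b))
            (fun q b => V (K q) (col b)))) = Matrix.of (Sum.elim (fun _ : Fin 1 =>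
            fun b => Xh (col b)) (fun q b => D (K q) (zc (col b)))) := by
          ext1 a b
          rcases a with a | a
          · rfl
          · show V (K a) (col b) = D (K a) (zc (col b))
            rw [hV]
            show (if col b = Fin.last s then D (K a) (zc (col b)) / zc (col b)
                else D (K a) (zc (col b))) = _
            rw [if_neg (hex b)]
        rw [h3]
        refine h2.trans ?_
        rw [exp_le_exp]
        push_cast
        omega
    have hyV : ∀ i, yh i = ∑ I, lm I * C (V I i) := by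
      intro i
      refine Fin.lastCases ?_ (fun i => ?_) i
      · rw [hyhl]
        refine Finset.sum_congr rfl fun I _ => ?_
        rw [hV]
        show _ = lm I * C (if Fin.last s = Fin.last s then D I (zc (Fin.last s)) / zc (Fin.last s)
          else D I (zc (Fin.last s)))
        rw [if_pos rfl, hzcl]
      · rw [hyhc]
        refine Finset.sum_congr rfl fun I _ => ?_
        rw [hV]
        show _ = lm I * C (if Fin.castSucc i = Fin.last s then
          D I (zc (Fin.castSucc i)) / zc (Fin.castSucc i) else D I (zc (Fin.castSucc i)))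
        rw [if_neg (Fin.castSucc_lt_last i).ne, hzcc]
    have hdetO : C (ε * b ^ w₀) * (Matrix.of fun a b => rowsL Xh yh α a (col b)).det ∈
        OA O (s + 1) := by
      have h1 := det_row_mem (s := s + 1) O (ε := ε) (β := b) (fun b => Xh (col b))
        (fun I b => V I (col b)) (fun K => by
          rw [hmem, map_mul, hε]
          calc _ ≤ exp (-((w₀ * δ w + ρ w + N w : ℕ) : ℤ)) *
                exp ((w₀ * δ w + ρ w + N w : ℕ) : ℤ) := mul_le_mul' le_rfl (hminor K)
            _ = 1 := by rw [← exp_add, neg_add_cancel, exp_zero])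
        (fun q I => dL (α q) (lm I)) (fun q I => by
          rw [← dL_C_mul]
          refine dL_mem_OA ?_ _
          intro γ
          rw [coeff_C_mul, hmem, map_mul, hb]
          calc _ ≤ exp (-(σ w : ℤ)) * exp (σ w : ℤ) := mul_le_mul' le_rfl (hlmw I γ w)
            _ = 1 := by rw [← exp_add, neg_add_cancel, exp_zero])
      have h2 : (Matrix.of fun a b => rowsL Xh yh α a (col b)) =
          Matrix.of (Sum.elim (fun (_ : Fin 1) b => C (Xh (col b)))
            (fun q b => ∑ I, dL (α q) (lm I) * C (V I (col b)))) := by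
        ext1 i j
        rcases i with i | q
        · rfl
        · show dL (α q) (yh (col j)) = ∑ I, dL (α q) (lm I) * C (V I (col j))
          rw [hyV, dL_sum]
          exact Finset.sum_congr rfl fun I _ => dL_mul_C _ _ _
      rw [h2]
      exact h1
    have hPw := hP
    rw [det_rowsL_scale τ hXX hyy, hprod] at hPw
    obtain ⟨ℓh, hℓh⟩ : ∃ ℓh : MvPolynomial (Fin (s + 1)) L, ℓh =
      ∑ i, C ((Fin.snoc xh 0 : Fin (s + 1) → L) i) * X i := ⟨_, rfl⟩
    have hℓℓ : rn ℓ = C (x l) * ℓh := by
      rw [hℓh, Fin.sum_univ_castSucc]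
      simp only [Fin.snoc_castSucc, Fin.snoc_last, C_0, zero_mul, add_zero]
      rw [Finset.mul_sum, hℓd, map_sum]
      refine Finset.sum_congr rfl fun i _ => ?_
      rw [map_mul, hrnC, hxxh i, C_mul, mul_assoc, hrn, rename_X]
    rw [hℓℓ, mul_pow] at hPw
    have hinv : (C ((x l)⁻¹ ^ nx) * C (x l ^ nx) : MvPolynomial (Fin (s + 1)) L) = 1 := by
      rw [← C_mul, ← mul_pow, inv_mul_cancel₀ hl, one_pow, C_1]
    have h1 : ℓh ^ k * (C (ε * b ^ w₀ * ((x l)⁻¹ ^ nx * x l ^ k)) * P) ∈ OA O (s + 1) := by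
      have h2 : ℓh ^ k * (C (ε * b ^ w₀ * ((x l)⁻¹ ^ nx * x l ^ k)) * P) =
          C (ε * b ^ w₀) * (Matrix.of fun a b => rowsL Xh yh α a (col b)).det := by
        have h3 : (Matrix.of fun a b => rowsL Xh yh α a (col b)).det =
            C ((x l)⁻¹ ^ nx) * (C (x l) ^ k * ℓh ^ k * P) := by
          rw [← hPw, ← mul_assoc, hinv, one_mul]
        rw [h3, C_mul (a := ε * b ^ w₀), C_mul (a := (x l)⁻¹ ^ nx), C_pow (x l) k]
        ring
      rw [h2]
      exact hdetO
    rw [hℓh] at h1
    have h2 := gauss_linear_pow (c := (Fin.snoc xh 0 : Fin (s + 1) → L)) (l := Fin.castSucc l)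
      (fun i => by
        refine Fin.lastCases ?_ (fun i => ?_) i
        · rw [Fin.snoc_last]
          exact O.zero_mem
        · rw [Fin.snoc_castSucc]
          exact hxhO i) (by rw [Fin.snoc_castSucc]; exact hxhl) _ h1 β
    rw [coeff_C_mul, hmem, map_mul, map_mul, map_mul, map_mul, map_pow, map_pow, map_pow,
      map_inv₀, hε, hb, ← hlmax] at h2
    have hv : vmax w.1 x ≠ 0 := by
      rw [hlmax]
      exact hwl
    have hP1 : w.1 (coeff β P) ≠ 0 := (Valuation.ne_zero_iff _).2 hβ
    have hne : exp (-((w₀ * δ w + ρ w + N w : ℕ) : ℤ)) * exp (-(σ w : ℤ)) ^ w₀ *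
        ((vmax w.1 x)⁻¹ ^ nx * vmax w.1 x ^ k) ≠ 0 :=
      mul_ne_zero (mul_ne_zero exp_ne_zero (pow_ne_zero _ exp_ne_zero))
        (mul_ne_zero (pow_ne_zero _ (inv_ne_zero hv)) (pow_ne_zero _ hv))
    have h3 := (log_le_log (mul_ne_zero hne hP1) one_ne_zero).2 h2
    rw [log_one, log_mul hne hP1, log_mul (mul_ne_zero exp_ne_zero
      (pow_ne_zero _ exp_ne_zero)) (mul_ne_zero (pow_ne_zero _ (inv_ne_zero hv))
      (pow_ne_zero _ hv)), log_mul exp_ne_zero (pow_ne_zero _ exp_ne_zero),
      log_mul (pow_ne_zero _ (inv_ne_zero hv)) (pow_ne_zero _ hv), log_pow, log_pow, log_pow,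
      log_inv, log_exp, log_exp] at h3
    simp only [nsmul_eq_mul] at h3
    push_cast at h3
    linarith
  -- the sum over the places
  have s1 := h.place_support hβ
  have s2 : (Function.support fun w : Place κ L =>
      ((k : ℤ) - nx) * log (vmax w.1 x)).Finite := by
    refine (h.vmax_support hx0).subset fun w hw h1 => hw ?_
    simp only at h1 ⊢
    rw [h1, mul_zero]
  have hcast : ∀ {F : Place κ L → ℕ}, (Function.support F).Finite →
      (Function.support fun w : Place κ L => (F w : ℤ)).Finite := by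
    intro F hF
    refine hF.subset fun w hw h1 => hw ?_
    simp only at h1 ⊢
    rw [h1, Nat.cast_zero]
  have s3 := hcast hδ
  have s4 := hcast hσ
  have s5 := hcast hρ
  have s6 := hcast hN
  have s34 : (Function.support fun w : Place κ L => (δ w : ℤ) + (σ w : ℤ)).Finite :=
    (s3.union s4).subset (Function.support_add _ _)
  have s34' : (Function.support fun w : Place κ L => (w₀ : ℤ) * ((δ w : ℤ) + (σ w : ℤ))).Finite := by
    refine s34.subset fun w hw h1 => hw ?_
    simp only at h1 ⊢
    rw [h1, mul_zero]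
  have s56 : (Function.support fun w : Place κ L => (ρ w : ℤ) + (N w : ℤ)).Finite :=
    (s5.union s6).subset (Function.support_add _ _)
  have hmain := finsum_mono ((s1.union s2).subset (Function.support_add _ _))
    ((s34'.union s56).subset (Function.support_add _ _)) hloc
  rw [finsum_add_distrib s1 s2, finsum_add_distrib s34' s56, h.product_formula hβ,
    ← mul_finsum _ _, ← mul_finsum _ _, finsum_add_distrib s3 s4, finsum_add_distrib s5 s6,
    zero_add] at hmain
  have hh : ∑ᶠ w : Place κ L, log (vmax w.1 x) = height κ x := rfl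
  rw [hh] at hmain
  have h1 := h.height_nonneg hx0
  have h2 : 0 ≤ ∑ᶠ w, (δ w : ℤ) := finsum_nonneg fun w => Int.natCast_nonneg _
  have h3 : 0 ≤ ∑ᶠ w, (σ w : ℤ) := finsum_nonneg fun w => Int.natCast_nonneg _
  have h4 : (w₀ : ℤ) ≤ r + 1 := by exact_mod_cast hw
  have h6 := mul_le_mul_of_nonneg_right hnxk h1
  have h7 := mul_le_mul_of_nonneg_right h4 (add_nonneg h2 h3)
  linarith

end Pool.Agent.Lib.MP_44a246_ntML
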