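import Mathlib
import Pool.Agent.Lib.MP_e52354_ntMR.MR07

/-!
The identity for the derivatives of a point and of the value of a form, from the relation between
the derivatives of the form.
-/

namespace Pool.Agent.Lib.MP_44a246_ntML

open Pool.Agent.Lib.MP_e52354_ntMR
open MvPolynomial

/-- **The identity for the derivatives of a point and of the value of the form.** -/
theorem relation_log {L M : Type*} [Field L] [Field M] [Algebra L M] {n : ℕ}
    {ι : Type*} [Fintype ι] {D₀ : ι → Derivation ℤ L L} {D : ι → Derivation ℤ M M}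
    (hD0 : ∀ I y, D I (algebraMap L M y) = algebraMap L M (D₀ I y))
    {J d : ℕ} {F : MvPolynomial (Fin n) L} (hF : F.IsHomogeneous d)
    {lam : ι → MvPolynomial (Fin n) L} {g₀ : MvPolynomial (Fin n) (MvPolynomial (Fin n) L)}
    (hrel : ∀ m, ∑ I, lam I * C (D₀ I (coeff m F)) = coeff m (lin L n ^ J * g₀))
    {α : Fin n →₀ ℕ} {x : Fin n → M} (hgA : aeval x (coA α g₀) ≠ 0) :
    ∃ (φ : Fin n → M) (g' : MvPolynomial (Fin n) M), ∑ i, φ i * x i = d * aeval x F ∧ g' ≠ 0 ∧
      ∑ i, C (φ i) * (∑ I, map (algebraMap L M) (lam I) * C (D I (x i))) -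
        ∑ I, map (algebraMap L M) (lam I) * C (D I (aeval x F)) =
        (∑ l, C (x l) * X l) ^ J * g' := by
  classical
  refine ⟨fun i => aeval x (pderiv i F), - valA x g₀, ?_, neg_ne_zero.2 (valA_ne_zero hgA), ?_⟩
  · have h3 := congrArg (aeval x) hF.sum_X_mul_pderiv
    rw [map_sum, map_nsmul, nsmul_eq_mul] at h3
    rw [← h3]
    exact Finset.sum_congr rfl fun i _ => by rw [map_mul, aeval_X, mul_comm]
  · have hsum : ∑ I, map (algebraMap L M) (lam I) * C (evD (D I) x F) =
        (∑ l, C (x l) * X l) ^ J * valA x g₀ := by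
      obtain ⟨S, hS⟩ : ∃ S : Finset (Fin n →₀ ℕ),
        S = F.support ∪ (lin L n ^ J * g₀).support := ⟨_, rfl⟩
      have h1 : ∀ I, evD (D I) x F = ∑ m ∈ S,
          algebraMap L M (D₀ I (coeff m F)) * ∏ i, x i ^ m i := by
        intro I
        rw [evD_eq_sum _ x F (S := S) (by rw [hS]; exact Finset.subset_union_left)]
        refine Finset.sum_congr rfl fun m _ => ?_
        rw [hD0]
      have h2 : ∑ I, map (algebraMap L M) (lam I) * C (evD (D I) x F) =
          ∑ m ∈ S, map (algebraMap L M) (∑ I, lam I * C (D₀ I (coeff m F))) *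
            C (∏ i, x i ^ m i) := by
        simp only [h1, map_sum, Finset.mul_sum, Finset.sum_mul]
        rw [Finset.sum_comm]
        refine Finset.sum_congr rfl fun m _ => Finset.sum_congr rfl fun I _ => ?_
        rw [C_mul, map_mul, map_C]
        ring
      rw [h2]
      simp only [hrel]
      rw [← valA_eq_sum x (lin L n ^ J * g₀) (S := S) (by rw [hS]; exact Finset.subset_union_right),
        map_mul, map_pow, valA_lin]
    have h4 : ∑ i, C (aeval x (pderiv i F)) *
        (∑ I, map (algebraMap L M) (lam I) * C (D I (x i))) =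
        ∑ I, map (algebraMap L M) (lam I) * C (∑ i, aeval x (pderiv i F) * D I (x i)) := by
      simp only [Finset.mul_sum, map_sum]
      rw [Finset.sum_comm]
      refine Finset.sum_congr rfl fun I _ => Finset.sum_congr rfl fun i _ => ?_
      rw [C_mul]
      ring
    have h5 : ∀ I, D I (aeval x F) = evD (D I) x F + ∑ i, aeval x (pderiv i F) * D I (x i) :=
      fun I => der_aeval_gen (D I) x F
    show ∑ i, C (aeval x (pderiv i F)) *
        (∑ I, map (algebraMap L M) (lam I) * C (D I (x i))) -
        ∑ I, map (algebraMap L M) (lam I) * C (D I (aeval x F)) = _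
    rw [h4]
    simp only [h5, C_add, mul_add, Finset.sum_add_distrib]
    rw [hsum]
    ring

end Pool.Agent.Lib.MP_44a246_ntML
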