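import Mathlib
import Pool.Agent.Lib.MP_44a246_ntX.XP2
import Pool.Agent.Lib.MP_44a246_ntL.LSum
import Pool.Agent.Lib.MP_44a246_ntML.ML03
import Pool.Agent.Lib.MP_44a246_ntML.ML04

/-!
The height inequality with the truncated counting function for the points over finite extensions
of a function field.
-/

namespace Pool.Agent.Lib.MP_44a246_ntML

open Pool.Agent.Lib.MP_44a246_nt
open Pool.Agent.Lib.MP_44a246_ntL
open Pool.Agent.Lib.MP_44a246_ntX
open Pool.Agent.Lib.MP_e52354_ntMR
open Pool.Agent.Lib.MP_44a246_ntU (exists_der_comb)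
open WithZero MvPolynomial

/-- the set of the places where the value of the form is not of the maximal size -/
theorem finite_ne_vmax {κ L : Type*} [Field κ] [IsAlgClosed κ] [CharZero κ] [Field L]
    [CharZero L] [Algebra κ L] (h : IsFF κ L) {n : ℕ} {x : Fin n → L} (hx : x ≠ 0) {u : L}
    (hu : u ≠ 0) (d : ℕ) : {w : Place κ L | w.1 u ≠ vmax w.1 x ^ d}.Finite := by
  refine ((h.place_support hu).union (h.vmax_support hx)).subset ?_
  intro w hw
  by_contra h1
  simp only [Set.mem_union, Function.mem_support, not_or, not_not] at h1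
  obtain ⟨h2, h3⟩ := h1
  obtain ⟨l, hl, hlmax, -⟩ := exists_vmax w.1 hx
  have h4 : vmax w.1 x ≠ 0 := by
    rw [hlmax]
    exact (Valuation.ne_zero_iff _).2 hl
  have h7 : w.1 u ≠ 0 := (Valuation.ne_zero_iff _).2 hu
  have h5 : vmax w.1 x = 1 := by
    have h8 := exp_log h4
    rw [h3, exp_zero] at h8
    exact h8.symm
  have h6 : w.1 u = 1 := by
    have h8 := exp_log h7
    rw [h2, exp_zero] at h8
    exact h8.symm
  exact hw (by rw [h5, h6, one_pow])

/-- **The height inequality** with the truncated counting function for the points over a finite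
extension. -/
theorem height_over_log {κ K L : Type*} [Field κ] [IsAlgClosed κ] [CharZero κ] [Field K]
    [CharZero K] [Algebra κ K] (hK : IsFF κ K) [Field L] [CharZero L] [Algebra K L]
    [FiniteDimensional K L] [Algebra κ L] [IsScalarTower κ K L] {k₀ : Type*} [Field k₀]
    [CharZero k₀] [Algebra k₀ K] [Algebra k₀ L] [IsScalarTower k₀ K L] {ι : Type*} [Fintype ι]
    {DK : ι → Derivation ℤ K K} {B A : Place κ K → ℕ} (hB : (Function.support B).Finite)
    (hA : (Function.support A).Finite) (hPB : ∀ I, PoleBound κ (DK I) B)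
    (hDk : ∀ I, ∀ c : k₀, DK I (algebraMap k₀ K c) = 0) {n r J d : ℕ}
    {F : MvPolynomial (Fin n) K} (hF : F.IsHomogeneous d)
    {lam : ι → MvPolynomial (Fin n) K}
    (hlam : ∀ I α (v : Place κ K), v.1 (coeff α (lam I)) ≤ exp (A v : ℤ))
    {g₀ : MvPolynomial (Fin n) (MvPolynomial (Fin n) K)}
    (hrel : ∀ m, ∑ I, lam I * C (DK I (coeff m F)) = coeff m (lin K n ^ J * g₀))
    {α : Fin n →₀ ℕ} {j₀ : Fin n} {x : Fin n → L} (hx : x j₀ = 1)
    (hxr : ∀ (q : ℕ) (j : Fin q → Fin n), AlgebraicIndependent k₀ (fun i => x (j i)) → q ≤ r)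
    (hu : aeval x F ≠ 0) (hgA : aeval x (coA α g₀) ≠ 0) :
    ((J : ℤ) - 2 * r - 1) * height κ x ≤ ramDeg κ L K +
      ({w : Place κ L | w.1 (aeval x F) ≠ vmax w.1 x ^ d}.ncard : ℤ) +
      (r + 1) * (Module.finrank K L * (∑ᶠ v, (B v : ℤ) + ∑ᶠ v, (A v : ℤ))) := by
  classical
  have hL : IsFF κ L := hK.of_finite
  choose D' hD' using fun I => exists_extension (L := L) (DK I)
  have hYk : ∀ I, ∀ c : k₀, D' I (algebraMap k₀ L c) = 0 := by
    intro I c
    rw [IsScalarTower.algebraMap_apply k₀ K L, hD', hDk, map_zero]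
  obtain ⟨φ, g', hφx, hg', hφy⟩ := relation_log hD' hF hrel hgA
  obtain ⟨q, jj, c, hq, hc⟩ := exists_der_comb (k := k₀) (γ := x) (r := r) hxr
  have hx0 : x ≠ 0 := by
    intro h0
    rw [h0] at hx
    exact zero_ne_one hx
  have hfs1 : (Function.support fun w : Place κ L => ramIdx K w.1 * B (below K w)).Finite := by
    refine (mason_sum_over (L := L) hL hB).1.subset ?_
    intro w hw
    rw [Function.mem_support] at hw ⊢
    exact_mod_cast hw
  have hfs3 : (Function.support fun w : Place κ L => ramIdx K w.1 * A (below K w)).Finite := by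
    refine (mason_sum_over (L := L) hL hA).1.subset ?_
    intro w hw
    rw [Function.mem_support] at hw ⊢
    exact_mod_cast hw
  have hfs2 : (Function.support fun w : Place κ L => ramIdx K w.1 - 1).Finite := by
    refine (mason_sum_ram (K := K) hL).1.subset ?_
    intro w hw
    rw [Function.mem_support] at hw ⊢
    exact_mod_cast hw
  have hT := finite_ne_vmax hL hx0 hu d
  obtain ⟨T, hTd⟩ : ∃ T : Set (Place κ L), T = {w : Place κ L | w.1 (aeval x F) ≠ vmax w.1 x ^ d} :=
    ⟨_, rfl⟩
  rw [← hTd] at hT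
  have hNs : (Function.support (T.indicator fun _ => (1 : ℕ))).Finite :=
    hT.subset Set.support_indicator_subset
  have hmain := height_ineq_log (κ := κ) hL (D := D') hfs1 hfs2 hfs3 hNs
    (minor_over hK (s := Set.univ) (fun I _ => hPB I) hD')
    (lam := fun I => map (algebraMap K L) (lam I)) (fun I β w => by
      rw [coeff_map, below_pow]
      have h1 := pow_le_pow_left' (hlam I β (below K w)) (ramIdx K w.1)
      refine h1.trans (le_of_eq ?_)
      rw [← exp_nsmul, nsmul_eq_mul]
      push_cast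
      rfl) hx hu (d := d) (fun w hw => by
      rw [Set.indicator_of_mem (by rw [hTd]; exact hw)]) hφx hg' hφy hq c jj
      (fun I i => hc (D' I) (hYk I) i)
  have hBs : (Function.support fun v : Place κ K => (B v : ℤ)).Finite := by
    refine hB.subset fun w hw h1 => hw ?_
    simp only at h1 ⊢
    rw [h1, Nat.cast_zero]
  have hAs : (Function.support fun v : Place κ K => (A v : ℤ)).Finite := by
    refine hA.subset fun w hw h1 => hw ?_
    simp only at h1 ⊢
    rw [h1, Nat.cast_zero]
  have e1 : ∑ᶠ w : Place κ L, ((ramIdx K w.1 * B (below K w) : ℕ) : ℤ) =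
      Module.finrank K L * ∑ᶠ v, (B v : ℤ) := by
    rw [← finsum_ramIdx_mul hL hBs]
    simp only [Nat.cast_mul]
  have e2 : ∑ᶠ w : Place κ L, ((ramIdx K w.1 * A (below K w) : ℕ) : ℤ) =
      Module.finrank K L * ∑ᶠ v, (A v : ℤ) := by
    rw [← finsum_ramIdx_mul hL hAs]
    simp only [Nat.cast_mul]
  have e3 : ∑ᶠ w : Place κ L, ((T.indicator (fun _ => (1 : ℕ)) w : ℕ) : ℤ) = (T.ncard : ℤ) := by
    have h1 : ∀ w : Place κ L, ((T.indicator (fun _ => (1 : ℕ)) w : ℕ) : ℤ) =
        T.indicator (fun _ => (1 : ℤ)) w := by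
      intro w
      by_cases hw : w ∈ T
      · rw [Set.indicator_of_mem hw, Set.indicator_of_mem hw, Nat.cast_one]
      · rw [Set.indicator_of_notMem hw, Set.indicator_of_notMem hw, Nat.cast_zero]
    rw [finsum_congr h1, ← finsum_mem_def, finsum_mem_eq_finite_toFinset_sum _ hT,
      Finset.sum_const, nsmul_eq_mul, mul_one, Set.ncard_eq_toFinset_card _ hT]
  rw [e1, e2, e3, ← ramDeg_eq hL, ← mul_add] at hmain
  rw [← hTd]
  exact hmain

end Pool.Agent.Lib.MP_44a246_ntML
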